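import Pool.Agent.K6.H28.RV.Pairing

/-!
# Comparison of two primes
-/

set_option autoImplicit false
set_option linter.unusedSectionVars false
set_option linter.unusedVariables false

namespace Pool.Agent.K6.H28.RV

open Module Pool.Agent.W495.FM Pool.Agent.K6.H28.FF

noncomputable section

variable {Ω : Type} [Field Ω] [CharZero Ω] {V : Type} {T : Homology Ω V} (hT : IsHomology T)

include hT

theorem isGeneralised_iff (A : V) (n k : ℤ) (x : T.E A n k) :
    IsGeneralised T A n k x ↔ (node T hT A n k).InG x := by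
  have h1 : ∀ (m : ℕ) (x : (node T hT A n k).E), (fun y => T.frob A n k y - y)^[m] x =
      (((node T hT A n k).φ - 1) ^ m) x := by
    intro m
    induction m with
    | zero =>
      intro x
      rfl
    | succ m ih =>
      intro x
      have h2 : (fun y => T.frob A n k y - y) x = ((node T hT A n k).φ - 1) x :=
        congrArg (· - x) ((hT.lin A n k).map_apply x).symm
      have h3 : (((node T hT A n k).φ - 1) ^ (m + 1)) x =
          (((node T hT A n k).φ - 1) ^ m) (((node T hT A n k).φ - 1) x) := by
        rw [pow_succ]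
        rfl
      exact (congrArg _ h2).trans ((ih _).trans h3.symm)
  constructor
  · rintro ⟨m, hm⟩
    exact ⟨m, (h1 m x).symm.trans hm⟩
  · rintro ⟨m, hm⟩
    exact ⟨m, (h1 m x).trans hm⟩

/-- A basis of the space of invariant classes. -/
theorem ex_basis (A : V) (n k : ℤ) : ∃ (m : ℕ) (a : Fin m → T.M A n k),
    m = finrank Ω (Submodule.span Ω (Set.range (T.reg A n k))) ∧
    Submodule.span Ω (Set.range fun l => T.reg A n k (a l)) =
      Submodule.span Ω (Set.range (T.reg A n k)) ∧
    LinearIndependent Ω fun l => T.reg A n k (a l) := by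
  have := hT.finite A n k
  obtain ⟨f, hf, h1, h2⟩ := Submodule.exists_fun_fin_finrank_span_eq Ω (Set.range (T.reg A n k))
  choose a ha using hf
  have h3 : (fun l => T.reg A n k (a l)) = f := funext ha
  refine ⟨_, a, rfl, ?_, ?_⟩
  · rw [h3, h1]
  · rw [h3]
    exact h2

/-- The multiplicity of the eigenvalue one if the conjecture of Tate is true. -/
theorem multiplicity_le {A : V} {n k : ℤ} (hO : OntoAt T A n k) {r : ℕ}
    (h : HasMultiplicity T A n k r) :
    r ≤ finrank Ω (Submodule.span Ω (Set.range (T.reg A n k))) := by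
  have := hT.finite A n k
  obtain ⟨x, hx, h⟩ := h
  have h1 : ∀ l, x l ∈ Submodule.span Ω (Set.range (T.reg A n k)) := fun l =>
    (mem_span_iff hT _ _ _ _).2 ((ontoAt_iff hT _ _ _).1 hO _ ((isGeneralised_iff hT _ _ _ _).1 (h l)))
  have h2 : LinearIndependent Ω fun l => (⟨x l, h1 l⟩ :
      Submodule.span Ω (Set.range (T.reg A n k))) :=
    LinearIndependent.of_comp (Submodule.subtype _) hx
  have h3 := h2.fintype_card_le_finrank
  rwa [Fintype.card_fin] at h3

variable {Ω' : Type} [Field Ω'] [CharZero Ω'] {V' : Type} {T' : Homology Ω' V'}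
  (hT' : IsHomology T') {A : V} {A' : V'} {n k n' k' : ℤ} {D : Pairing T A n k n' k'}
  (hD : IsPairing D) {D' : Pairing T' A' n k n' k'} (hD' : IsPairing D')

include hT' hD hD'

/-- The conjecture of Tate does not depend on the prime. -/
theorem onto_compare (h1 : OntoAt T A n k) (h2 : OntoAt T A n' k')
    {e : T.M A n k → T'.M A' n k} {e' : T.M A n' k' → T'.M A' n' k'}
    (he : ∀ a b, D'.int (e a) (e' b) = D.int a b)
    (hm : ∀ r : ℕ, HasMultiplicity T' A' n k r → HasMultiplicity T A n k r) :
    OntoAt T' A' n k := by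
  obtain ⟨m, a, hm', ha, ha'⟩ := ex_basis hT A n k
  have h3 := indep_compare hT hD hD' h2 a ha' he
  rw [ontoAt_iff hT']
  intro x hx
  refine (mem_span_iff hT' A' n k x).1 ?_
  by_contra hcon
  have h4 : x ∉ Submodule.span Ω' (Set.range fun l => T'.reg A' n k (e (a l))) := by
    intro h
    refine hcon (Submodule.span_mono ?_ h)
    rintro _ ⟨l, rfl⟩
    exact ⟨_, rfl⟩
  have h5 : LinearIndependent Ω' (Fin.cons x fun l => T'.reg A' n k (e (a l)) :
      Fin (m + 1) → T'.E A' n k) := linearIndependent_finCons.2 ⟨h3, h4⟩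
  have h6 : HasMultiplicity T' A' n k (m + 1) := by
    refine ⟨_, h5, fun l => ?_⟩
    refine Fin.cases ?_ (fun l => ?_) l
    · exact (isGeneralised_iff hT' _ _ _ _).2 hx
    · exact (isGeneralised_iff hT' _ _ _ _).2
        (inG_of_inv ((frob_iff hT' _ _ _ _).1 (hT'.frob_reg _ _ _ (e (a l)))))
  have h7 := multiplicity_le hT h1 (hm _ h6)
  omega

/-- The conjecture of Beilinson does not depend on the prime. -/
theorem inj_compare (h1 : InjAt T A n k) (h2 : OntoAt T A n' k')
    {e : T.M A n k → T'.M A' n k} {e' : T.M A n' k' → T'.M A' n' k'}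
    (he : ∀ a b, D'.int (e a) (e' b) = D.int a b) (hadd : IsAdd e)
    (hb : Function.Bijective e) : InjAt T' A' n k := by
  intro r x hx
  choose y hy using fun l => hb.2 (x l)
  have h3 : x = fun l => e (y l) := funext fun l => (hy l).symm
  subst h3
  refine indep_compare hT hD hD' h2 y (h1 r y ?_) he
  exact LinearIndependent.of_comp (hadd.map.toRatLinearMap) hx

omit hD hD' in
theorem tate_compare {U : Family T} {U' : Family T'} (hC : IsComparison U U') {N : ℤ}
    (h : TateTo U N) : TateTo U' N := by
  intro t' ht' k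
  obtain ⟨t, ht, hC⟩ := hC t'
  obtain ⟨⟨D, D', hD, hD', e, e', hadd, hb, he⟩, hm⟩ := hC k
  exact onto_compare hT hT' hD hD' (h t (by omega) k) (h t (by omega) _) he fun r => (hm r).1

omit hD hD' in
theorem beilinson_compare {U : Family T} {U' : Family T'} (hC : IsComparison U U') {N : ℤ}
    (h : TateTo U N) (h' : BeilinsonTo U N) : BeilinsonTo U' N := by
  intro t' ht' k
  obtain ⟨t, ht, hC⟩ := hC t'
  obtain ⟨⟨D, D', hD, hD', e, e', hadd, hb, he⟩, hm⟩ := hC k
  exact inj_compare hT hT' hD hD' (h' t (by omega) k) (h t (by omega) _) he hadd hb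

end

end Pool.Agent.K6.H28.RV
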