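import Pool.Agent.K6.H28.FF.Defs

/-!
# Vanishing of Frobenius invariant classes at the generic points: definitions
-/

set_option autoImplicit false

namespace Pool.Agent.K6.H28.RV

open Pool.Agent.W495.FM Pool.Agent.K6.H28.FF

variable {Ω : Type} [Field Ω] {V : Type} {T : Homology Ω V}

/-! ### The family of all smooth projective schemes -/

/-- There is a dominant rational map from `Y` to `Z`, at the generic points of the dimensions
`d' = d + r` of `Y` and `d` of `Z`: for each open subscheme `Z ∖ B` there are a flat pull-back `α` to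
some `Y ∖ B'` and, for each smaller `Y ∖ B''`, a left inverse `β` of its restriction over some
`Z ∖ B₁` (the pull-back to a multisection of `Y ∖ B'' → Z ∖ B₁` followed by the push-forward divided by
the degree), for the motivic and the `ℓ`-adic homology. The schemes `Y` and `Z` may belong to different
ambient schemes. -/
def Maps (S' : Strata T) (Y : S'.C) (d' : ℤ) (S : Strata T) (Z : S.C) (d r : ℤ) : Prop :=
  ∀ B : S.C, S.dim B < d → ∃ B' : S'.C, S'.dim B' < d' ∧ ∀ n k : ℤ,
    ∃ α : Hom T (S.op Z B) n k (S'.op Y B') (n + 2 * r) (k + r),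
      ∀ (B'' : S'.C) (h : B' ≤ B''), S'.dim B'' < d' → ∃ (B₁ : S.C) (h₁ : B ≤ B₁), S.dim B₁ < d ∧
        ∃ β : Hom T (S'.op Y B'') (n + 2 * r) (k + r) (S.op Z B₁) n k,
          (∀ x, β.f ((S'.res Y h (n + 2 * r) (k + r)).f (α.f x)) = (S.res Z h₁ n k).f x) ∧
          ∀ x, β.g ((S'.res Y h (n + 2 * r) (k + r)).g (α.g x)) = (S.res Z h₁ n k).g x

/-- A family of schemes `Y t` of dimension `d t`, with the data of their closed subsets, and a set `R`
of indices. -/
structure Family (T : Homology Ω V) where
  I : Type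
  S : I → Strata T
  Y : ∀ t, (S t).C
  d : I → ℤ
  R : I → Prop

/-- The scheme `Y t`. -/
abbrev Family.X (U : Family T) (t : U.I) : V := (U.S t).cl (U.Y t)

/-- `Z` is a closed subset of dimension `e` of one of the schemes `Y t`. -/
def Variety (U : Family T) (t : U.I) (Z : (U.S t).C) (e : ℤ) : Prop :=
  Z ≤ U.Y t ∧ (U.S t).dim Z = e ∧ 0 ≤ e

/-- Each scheme `Y t` has the properties of a smooth projective scheme of pure dimension `d t`, and the
empty scheme has no homology. -/
structure IsPureFamily (U : Family T) : Prop where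
  strata : ∀ t, IsStrata (U.S t)
  nonneg : ∀ t, 0 ≤ U.d t
  dim_eq : ∀ t, (U.S t).dim (U.Y t) = U.d t
  pure : ∀ t, Pure T (U.X t)
  empty : ∀ (t : U.I) (C : (U.S t).C), (U.S t).dim C < 0 → ∀ n k : ℤ,
    (∀ x : T.M ((U.S t).cl C) n k, x = 0) ∧ ∀ x : T.E ((U.S t).cl C) n k, x = 0

/-- Properties of the family of all non-empty smooth projective schemes `Y t` of pure dimension over the
base field, where `R` is the set of projective spaces (each variety of dimension `e` over the base field
is birational to a closed subset `Z` of dimension `e` of a projective space): each closed subset `Z` of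
`Y t` of dimension at most `e` is dominated by a scheme `Y t'` of dimension `e` (alterations); there are
projective spaces of all dimensions, and they satisfy the conjecture of Tate and Beilinson; each scheme
`Y t` of dimension `e` is dominated by a closed subset of dimension `e` of the projective space of
dimension `e + 1` (for instance a hypersurface that is birational to `Y t`); each closed subset of
dimension `e` dominates the projective spaces of dimension at most `e`. -/
structure IsUniverse (U : Family T) : Prop extends IsPureFamily U where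
  models : ∀ (t : U.I) (Z : (U.S t).C) (e : ℤ), Z ≤ U.Y t → 0 ≤ e → (U.S t).dim Z ≤ e →
    ∃ t' : U.I, U.d t' = e ∧ Maps (U.S t') (U.Y t') e (U.S t) Z e 0
  space : ∀ e : ℤ, 0 ≤ e → ∃ n : U.I, U.R n ∧ U.d n = e
  space_tb : ∀ n : U.I, U.R n → TB T (U.X n)
  hypersurface : ∀ t n : U.I, U.R n → U.d n = U.d t + 1 → ∃ Z : (U.S n).C, Z ≤ U.Y n ∧
    (U.S n).dim Z ≤ U.d t ∧ Maps (U.S n) Z (U.d t) (U.S t) (U.Y t) (U.d t) 0
  noether : ∀ (t n : U.I) (Z : (U.S t).C) (e : ℤ), Variety U t Z e → U.R n → U.d n ≤ e →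
    Maps (U.S t) Z e (U.S n) (U.Y n) (U.d n) (e - U.d n)

/-! ### Duality and correspondences -/

/-- A pairing `P` of the `ℓ`-adic groups of `A` in the degrees `(n, k)` and `(n', k')`, and a pairing
`int` of the motivic groups. -/
structure Pairing (T : Homology Ω V) (A : V) (n k n' k' : ℤ) where
  P : T.E A n k → T.E A n' k' → Ω
  int : T.M A n k → T.M A n' k' → ℚ

/-- The properties of Poincaré duality (cup product and trace) and of the intersection numbers of cycles
for the groups `H_(2k)(A, ℚ_ℓ(k))` and `H_(2(d-k))(A, ℚ_ℓ(d-k))` of a smooth projective scheme `A` of pure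
dimension `d`. -/
structure IsPairing {A : V} {n k n' k' : ℤ} (D : Pairing T A n k n' k') : Prop where
  left : ∀ y, IsLin Ω fun x => D.P x y
  right : ∀ x, IsLin Ω (D.P x)
  nondeg : ∀ x, (∀ y, D.P x y = 0) → x = 0
  inv : ∀ x y, D.P (T.frob A n k x) (T.frob A n' k' y) = D.P x y
  reg : ∀ a b, D.P (T.reg A n k a) (T.reg A n' k' b) = (D.int a b : Ω)

/-- Data of a ring `R` with an operation on the motivic and on the `ℓ`-adic homology of `A`, a map `cyc`
to the motivic homology of `A₂` in the degree `(n, k)`, and an element `F`. -/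
structure Corr (T : Homology Ω V) (A A₂ : V) (n k : ℤ) where
  R : Type
  [ring : Ring R]
  [alg : Algebra ℚ R]
  cyc : R → T.M A₂ n k
  onM : ∀ n k : ℤ, R → T.M A n k → T.M A n k
  onE : ∀ n k : ℤ, R → T.E A n k → T.E A n k
  F : R

attribute [instance] Corr.ring Corr.alg

/-- The operation on the motivic homology, and the map `cyc`. -/
structure ActsM {A A₂ : V} {n k : ℤ} (K : Corr T A A₂ n k) : Prop where
  cyc_add : IsAdd K.cyc
  cyc_inj : Function.Injective K.cyc
  addM : ∀ n k z, IsAdd (K.onM n k z)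
  addM' : ∀ n k x, IsAdd fun z => K.onM n k z x
  mulM : ∀ n k z w x, K.onM n k (z * w) x = K.onM n k z (K.onM n k w x)
  oneM : ∀ n k x, K.onM n k 1 x = x

/-- The operation on the `ℓ`-adic homology. -/
structure ActsE {A A₂ : V} {n k : ℤ} (K : Corr T A A₂ n k) : Prop where
  linE : ∀ n k z, IsLin Ω (K.onE n k z)
  addE : ∀ n k x, IsAdd fun z => K.onE n k z x
  mulE : ∀ n k z w x, K.onE n k (z * w) x = K.onE n k z (K.onE n k w x)
  oneE : ∀ n k x, K.onE n k 1 x = x

/-- Properties of the ring `R = CH_d(A × A) ⊗ ℚ` of correspondences of a smooth projective scheme `A` of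
pure dimension `d` over the field with `q` elements, where `A₂ = A × A`: it operates on the motivic and
on the `ℓ`-adic homology of `A`; the Frobenius correspondence `F` operates on `CH^(d-k)(A, n - 2 k)` as
`q ^ (d - k)`, and on `H_n(A, ℚ_ℓ(k)) = H^(2 d - n)(A, ℚ_ℓ(d - k))` as `q ^ (d - k)` times the Frobenius
automorphism; and the cycle class of a correspondence that operates as zero on the cohomology of `A`
(with some twist) is zero. -/
structure IsCorr {A A₂ : V} {n₂ d : ℤ} (K : Corr T A A₂ n₂ d) (q : ℚ) : Prop extends ActsM K,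
    ActsE K where
  F_M : ∀ (n k : ℤ) (x : T.M A n k), K.onM n k K.F x = q ^ (d - k) • x
  F_E : ∀ (n k : ℤ) (x : T.E A n k), K.onE n k K.F x = ((q ^ (d - k) : ℚ) : Ω) • T.frob A n k x
  faithful : ∀ (k : ℤ) (z : K.R), (∀ (n : ℤ) (x : T.E A n k), K.onE n k z x = 0) →
    T.reg A₂ n₂ d (K.cyc z) = 0

/-- Properties of the exterior product `c a b` of cycles `a` and `b` of dimension `k` and `d - k`: it
operates as `P(·, b) a` on `H_n(A, ℚ_ℓ(k))`, where `n = 2 k`, as zero on `H_m(A, ℚ_ℓ(j))` for `m ≠ n`, and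
as zero on the motivic homology in the degrees `(m, j)` with `m ≠ 2 j` (there it factors through the
motivic homology of a point). -/
structure IsCross {A A₂ : V} {n₂ d : ℤ} (K : Corr T A A₂ n₂ d) {n k n' k' : ℤ}
    (D : Pairing T A n k n' k') (c : T.M A n k → T.M A n' k' → K.R) : Prop where
  onE : ∀ a b x, K.onE n k (c a b) x = D.P x (T.reg A n' k' b) • T.reg A n k a
  onE_zero : ∀ a b m j, m ≠ n → ∀ x : T.E A m j, K.onE m j (c a b) x = 0
  onM_zero : ∀ a b m j, m ≠ 2 * j → ∀ x : T.M A m j, K.onM m j (c a b) x = 0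

/-- The schemes `Y t` have Poincaré duality and correspondences, where `Y t₂` is `Y t × Y t`, and `q` is
the number of elements of the base field. -/
def HasCorrespondences (U : Family T) (q : ℚ) : Prop :=
  q ≠ 0 ∧ ∀ t : U.I, ∃ t₂ : U.I, U.d t₂ = 2 * U.d t ∧
    ∃ K : Corr T (U.X t) (U.X t₂) (2 * U.d t) (U.d t), IsCorr K q ∧
      ∀ k : ℤ, ∃ D : Pairing T (U.X t) (2 * k) k (2 * (U.d t - k)) (U.d t - k), IsPairing D ∧
        ∃ c : T.M (U.X t) (2 * k) k → T.M (U.X t) (2 * (U.d t - k)) (U.d t - k) → K.R,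
          IsCross K D c

/-! ### Two primes -/

/-- The class `x` belongs to the generalised eigenspace of the Frobenius for the eigenvalue one. -/
def IsGeneralised (T : Homology Ω V) (A : V) (n k : ℤ) (x : T.E A n k) : Prop :=
  ∃ m : ℕ, (fun y => T.frob A n k y - y)^[m] x = 0

/-- The multiplicity of the eigenvalue one of the Frobenius on `H_n(A, ℚ_ℓ(k))` is at least `r`. -/
def HasMultiplicity (T : Homology Ω V) (A : V) (n k : ℤ) (r : ℕ) : Prop :=
  ∃ x : Fin r → T.E A n k, LinearIndependent Ω x ∧ ∀ l, IsGeneralised T A n k (x l)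

variable {Ω' : Type} [Field Ω'] {V' : Type} {T' : Homology Ω' V'}

/-- The cycles (by the bijection `e` and the map `e'`) and their intersection numbers are the same. -/
def SameCycles {A : V} {A' : V'} {n k n' k' : ℤ} (D : Pairing T A n k n' k')
    (D' : Pairing T' A' n k n' k') : Prop :=
  ∃ (e : T.M A n k → T'.M A' n k) (e' : T.M A n' k' → T'.M A' n' k'),
    IsAdd e ∧ Function.Bijective e ∧ ∀ a b, D'.int (e a) (e' b) = D.int a b

/-- The schemes `A` and `A'` (for the `ℓ`-adic and the `ℓ'`-adic theory) have Poincaré duality with the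
same cycles, and the multiplicities of the eigenvalue one are equal (Deligne). -/
def Compared (T : Homology Ω V) (A : V) (T' : Homology Ω' V') (A' : V') (n k n' k' : ℤ) : Prop :=
  (∃ (D : Pairing T A n k n' k') (D' : Pairing T' A' n k n' k'),
    IsPairing D ∧ IsPairing D' ∧ SameCycles D D') ∧
  ∀ r : ℕ, HasMultiplicity T' A' n k r ↔ HasMultiplicity T A n k r

/-- The theories `T` and `T'` are the `ℓ`-adic and the `ℓ'`-adic theory, and each scheme `Y' t'` is one
of the schemes `Y t`. -/
def IsComparison (U : Family T) (U' : Family T') : Prop :=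
  ∀ t' : U'.I, ∃ t : U.I, U.d t = U'.d t' ∧ ∀ k : ℤ,
    Compared T (U.X t) T' (U'.X t') (2 * k) k (2 * (U.d t - k)) (U.d t - k)

/-! ### The theorems -/

/-- The Frobenius invariant classes in `H^i(F_0 A, ℚ_ℓ(j))` are zero, for the function fields of the
irreducible components of dimension `d` of `A`. -/
def Vanish (S : Strata T) (A : S.C) (d i j : ℤ) : Prop :=
  ∀ B : S.C, S.dim B < d → ∀ x : T.E (S.op A B) (2 * d - i) (d - j), GenInv S A d B x →
    ∃ (B' : S.C) (h : B ≤ B'), S.dim B' < d ∧ (S.res A h (2 * d - i) (d - j)).g x = 0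

/-- There are no Frobenius invariant classes in `H^(2 j - a)(F_0 Z, ℚ_ℓ(j))` for `j > a`, for the
function fields of the irreducible components of dimension `e` of `Z`. -/
def Ray (S : Strata T) (Z : S.C) (e a : ℤ) : Prop :=
  ∀ j : ℤ, a < j → Vanish S Z e (2 * j - a) j

/-- Q1 in all degrees for the function fields of the irreducible components of dimension `e` of `Z`. -/
def AllQ1 (S : Strata T) (Z : S.C) (e : ℤ) : Prop :=
  ∀ i j : ℤ, Q1 S Z e i j

/-- For all varieties of dimension at most `N` the invariant classes on the ray `a` are zero. -/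
def Rays (U : Family T) (a N : ℤ) : Prop :=
  ∀ (t : U.I) (Z : (U.S t).C) (e : ℤ), Variety U t Z e → e ≤ N → Ray (U.S t) Z e a

/-- Q1 for all varieties in all degrees. -/
def Q1Everywhere (U : Family T) : Prop :=
  ∀ (t : U.I) (Z : (U.S t).C) (e : ℤ), Variety U t Z e → AllQ1 (U.S t) Z e

/-- The conjecture of Tate in all codimensions and the semisimplicity of the eigenvalue one, for all
`Y t` of dimension at most `N`. -/
def TateTo (U : Family T) (N : ℤ) : Prop :=
  ∀ t : U.I, U.d t ≤ N → ∀ k : ℤ, OntoAt T (U.X t) (2 * k) k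

/-- The conjecture of Beilinson for all `Y t` of dimension at most `N`: the cycle class maps are
injective on `CH_k(Y t) ⊗ Ω`. -/
def BeilinsonTo (U : Family T) (N : ℤ) : Prop :=
  ∀ t : U.I, U.d t ≤ N → ∀ k : ℤ, InjAt T (U.X t) (2 * k) k

/-- The vanishing of invariant classes on the first rays: for all varieties of dimension at most `N`,
for one variety `Z` of dimension `e`, and for one scheme `Y t` that satisfies the conjecture of Tate and
Beilinson (for instance a projective space). -/
def RayTheorem (U : Family T) : Prop :=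
  (∀ N : ℤ, Rays U 0 N ↔ TateTo U N) ∧
  (∀ N : ℤ, Rays U 1 N ↔ TateTo U (N - 1) ∧ BeilinsonTo U N) ∧
  (∀ (t : U.I) (Z : (U.S t).C) (e : ℤ), Variety U t Z e → Ray (U.S t) Z e 1 →
    TateTo U (e - 1) ∧ (Ray (U.S t) Z e 2 → BeilinsonTo U (e - 1))) ∧
  ∀ t : U.I, TB T (U.X t) →
    (Ray (U.S t) (U.Y t) (U.d t) 1 ↔ TateTo U (U.d t - 1)) ∧
    (Ray (U.S t) (U.Y t) (U.d t) 1 ∧ Ray (U.S t) (U.Y t) (U.d t) 2 ↔
      TateTo U (U.d t - 1) ∧ BeilinsonTo U (U.d t - 1))

/-- From the first rays to Q1 in all degrees, in bounded dimension: for all varieties `W` of dimension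
`c`, and for the schemes `Y s` that satisfy the conjecture of Tate and Beilinson. One assumes that there
are no invariant classes on the first ray for all varieties of dimension at most `N`, or on the first
two rays for one variety `Z` of dimension `e`. -/
def FromRays (U : Family T) : Prop :=
  (∀ N : ℤ, Rays U 1 N →
    (∀ (s : U.I) (W : (U.S s).C) (c : ℤ), Variety U s W c → 2 * c ≤ N → c < N →
      AllQ1 (U.S s) W c) ∧
    ∀ s : U.I, 2 * U.d s - 2 ≤ N → U.d s ≤ N → TB T (U.X s) →
      AllQ1 (U.S s) (U.Y s) (U.d s)) ∧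
  ∀ (t : U.I) (Z : (U.S t).C) (e : ℤ), Variety U t Z e → Ray (U.S t) Z e 1 → Ray (U.S t) Z e 2 →
    (∀ (s : U.I) (W : (U.S s).C) (c : ℤ), Variety U s W c → 2 * c + 1 ≤ e →
      AllQ1 (U.S s) W c) ∧
    ∀ s : U.I, 2 * U.d s - 1 ≤ e → TB T (U.X s) → AllQ1 (U.S s) (U.Y s) (U.d s)

/-- Q1 for all varieties in all degrees: it suffices that there are no invariant classes on the first
ray, or on the first two rays for varieties of arbitrarily large dimension. -/
def AllDegrees (U : Family T) : Prop :=
  (Q1Everywhere U ↔ ∀ N : ℤ, Rays U 1 N) ∧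
  (Q1Everywhere U ↔ ∀ N : ℤ, ∃ (t : U.I) (Z : (U.S t).C) (e : ℤ), Variety U t Z e ∧ N ≤ e ∧
    Ray (U.S t) Z e 1 ∧ Ray (U.S t) Z e 2)

/-- The independence of `ℓ`. -/
def Independence (U : Family T) (U' : Family T') : Prop :=
  (∀ (t : U.I) (Z : (U.S t).C) (e : ℤ) (t' : U'.I), Variety U t Z e → U'.d t' ≤ e →
    TB T' (U'.X t') → Ray (U.S t) Z e 1 →
      Ray (U'.S t') (U'.Y t') (U'.d t') 1 ∧
      (Ray (U.S t) Z e 2 → Ray (U'.S t') (U'.Y t') (U'.d t') 2)) ∧
  ((∀ N : ℤ, Rays U 1 N) → ∀ N : ℤ, Rays U' 1 N) ∧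
  (Q1Everywhere U → Q1Everywhere U')

end Pool.Agent.K6.H28.RV
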