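import Pool.Agent.K6.H28.RV.Compare

/-!
# The conjecture of Parshin, after Geisser
-/

set_option autoImplicit false
set_option linter.unusedSectionVars false
set_option linter.unusedVariables false

namespace Pool.Agent.K6.H28.RV

open Module Polynomial Pool.Agent.W495.FM Pool.Agent.K6.H28.FF

noncomputable section

/-- Dual vectors. -/
theorem ex_dual {m n : ℕ} (v : Fin m → Fin n → ℚ)
    (h : ∀ q : Fin m → ℚ, (∀ j, ∑ i, q i * v i j = 0) → q = 0) :
    ∃ C : Fin m → Fin n → ℚ, ∀ i l, ∑ j, C i j * v l j = if i = l then 1 else 0 := by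
  have hv : LinearIndependent ℚ v := by
    rw [Fintype.linearIndependent_iff]
    intro q hq i
    refine congrFun (h q fun j => ?_) i
    have h1 := congrFun hq j
    rw [Finset.sum_apply] at h1
    exact h1
  let b := Module.Basis.extend hv.linearIndepOn_id
  have h5 : ∀ k, v k ∈ hv.linearIndepOn_id.extend (Set.subset_univ _) := fun k =>
    hv.linearIndepOn_id.subset_extend _ ⟨k, rfl⟩
  have hb : ∀ l, b ⟨v l, h5 l⟩ = v l := fun l => Module.Basis.extend_apply_self _ _
  refine ⟨fun i j => b.coord ⟨v i, h5 i⟩ (Pi.single j 1), fun i l => ?_⟩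
  have h6 : b.coord ⟨v i, h5 i⟩ (v l) = if i = l then 1 else 0 := by
    rw [← hb l, Module.Basis.coord_apply, Module.Basis.repr_self, Finsupp.single_apply]
    by_cases hil : i = l
    · subst hil
      simp
    · rw [if_neg hil, if_neg]
      intro h
      exact hil (hv.injective (congrArg Subtype.val h)).symm
  rw [← h6]
  conv_rhs => rw [← Finset.univ_sum_single (v l), map_sum]
  refine Finset.sum_congr rfl fun j _ => ?_
  have h7 : (Pi.single j (v l j) : Fin n → ℚ) = v l j • Pi.single j 1 := by
    rw [← Pi.single_smul, smul_eq_mul, mul_one]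
  rw [h7, map_smul, smul_eq_mul, mul_comm]

variable {Ω : Type} [Field Ω] [CharZero Ω] {V : Type} {T : Homology Ω V} (hT : IsHomology T)
  {A A₂ : V} {n₂ d : ℤ} {q : ℚ} {K : Corr T A A₂ n₂ d} (hK : IsCorr K q)

/-- The operation on the motivic homology. -/
def opM (hK : IsCorr K q) (n k : ℤ) : K.R →ₐ[ℚ] Module.End ℚ (T.M A n k) :=
  RingHom.toRatAlgHom
    { toFun := fun z => (hK.addM n k z).map.toRatLinearMap
      map_one' := LinearMap.ext fun x => hK.oneM n k x
      map_mul' := fun z w => LinearMap.ext fun x => hK.mulM n k z w x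
      map_zero' := LinearMap.ext fun x => (hK.addM' n k x).map.map_zero
      map_add' := fun z w => LinearMap.ext fun x => hK.addM' n k x z w }

theorem opM_apply (n k : ℤ) (z : K.R) (x : T.M A n k) : opM hK n k z x = K.onM n k z x := rfl

/-- The operation on the `ℓ`-adic homology. -/
def opE (hK : IsCorr K q) (n k : ℤ) : K.R →+* Module.End Ω (T.E A n k) where
  toFun := fun z => (hK.linE n k z).map
  map_one' := LinearMap.ext fun x => ((hK.linE n k 1).map_apply x).trans (hK.oneE n k x)
  map_mul' := fun z w => LinearMap.ext fun x => by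
    rw [IsLin.map_apply, hK.mulE, Module.End.mul_apply, IsLin.map_apply, IsLin.map_apply]
  map_zero' := LinearMap.ext fun x => by
    rw [IsLin.map_apply]
    exact (hK.addE n k x).map.map_zero
  map_add' := fun z w => LinearMap.ext fun x => by
    rw [LinearMap.add_apply, IsLin.map_apply, IsLin.map_apply, IsLin.map_apply]
    exact hK.addE n k x z w

theorem opE_apply (n k : ℤ) (z : K.R) (x : T.E A n k) : opE hK n k z x = K.onE n k z x :=
  (hK.linE n k z).map_apply x

/-- The map to the motivic homology. -/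
def opC (hK : IsCorr K q) : K.R →ₗ[ℚ] T.M A₂ n₂ d := hK.cyc_add.map.toRatLinearMap

theorem opC_apply (z : K.R) : opC hK z = K.cyc z := rfl

/-- Rational scalars. -/
theorem onE_alg (n k : ℤ) (r : ℚ) :
    opE hK n k (algebraMap ℚ K.R r) = algebraMap Ω (Module.End Ω (T.E A n k)) (r : Ω) := by
  have h1 : (opE hK n k).comp (algebraMap ℚ K.R) =
      (algebraMap Ω (Module.End Ω (T.E A n k))).comp (algebraMap ℚ Ω) := Subsingleton.elim _ _
  have h2 := RingHom.congr_fun h1 r
  rw [RingHom.comp_apply, RingHom.comp_apply] at h2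
  rw [h2]
  rfl

theorem onE_smul (n k : ℤ) (r : ℚ) (z : K.R) (x : T.E A n k) :
    opE hK n k (r • z) x = (r : Ω) • opE hK n k z x := by
  rw [Algebra.smul_def, map_mul, onE_alg, Module.End.mul_apply, Module.algebraMap_end_apply]

/-- Polynomials in the Frobenius correspondence. -/
theorem onE_aeval (n k : ℤ) (p : ℚ[X]) :
    opE hK n k (aeval K.F p) = aeval (opE hK n k K.F) (p.map (algebraMap ℚ Ω)) := by
  rw [aeval_def, hom_eval₂, aeval_def, eval₂_map]
  congr 1
  exact Subsingleton.elim _ _

theorem onM_aeval (n k : ℤ) (p : ℚ[X]) (x : T.M A n k) :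
    opM hK n k (aeval K.F p) x = p.eval (q ^ (d - k)) • x := by
  have h1 : opM hK n k K.F = algebraMap ℚ (Module.End ℚ (T.M A n k)) (q ^ (d - k)) := by
    ext x
    rw [opM_apply, hK.F_M, Module.algebraMap_end_apply]
  rw [← aeval_algHom_apply, h1, aeval_algebraMap_apply, Module.algebraMap_end_apply]
  rfl

omit [CharZero Ω] in
/-- Polynomials on eigenvectors. -/
theorem aeval_eigen {E : Type} [AddCommGroup E] [Module Ω E] (f : E →ₗ[Ω] E) {c : Ω} {y : E}
    (h : f y = c • y) (P : Polynomial Ω) : aeval f P y = P.eval c • y := by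
  induction P using Polynomial.induction_on' with
  | add P Q hP hQ => rw [map_add, LinearMap.add_apply, hP, hQ, eval_add, add_smul]
  | monomial n r =>
    have h1 : ∀ n : ℕ, (f ^ n) y = c ^ n • y := by
      intro n
      induction n with
      | zero => rw [pow_zero, pow_zero, one_smul]; rfl
      | succ n ih => rw [pow_succ', Module.End.mul_apply, ih, map_smul, h, smul_smul, pow_succ]
    rw [aeval_monomial, eval_monomial, Module.End.mul_apply, h1, Module.algebraMap_end_apply,
      smul_smul]

include hT hK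

/-- The Frobenius correspondence satisfies an equation. -/
theorem ex_poly (hI : InjAt T A₂ n₂ d) : ∃ p : ℚ[X], p ≠ 0 ∧ aeval K.F p = 0 := by
  have := hT.finite A₂ n₂ d
  set m := finrank Ω (T.E A₂ n₂ d) with hm
  have h1 : ¬ LinearIndependent ℚ fun i : Fin (m + 1) => K.F ^ (i : ℕ) := by
    intro h
    have h2 := h.map' (opC hK) (LinearMap.ker_eq_bot.2 hK.cyc_inj)
    have h3 := (hI _ _ h2).fintype_card_le_finrank
    rw [Fintype.card_fin] at h3
    omega
  obtain ⟨g, hg, i, hi⟩ := Fintype.not_linearIndependent_iff.1 h1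
  refine ⟨∑ j : Fin (m + 1), C (g j) * X ^ (j : ℕ), ?_, ?_⟩
  · intro h
    apply hi
    have h2 := congrArg (fun p => p.coeff (i : ℕ)) h
    simp only [finsetSum_coeff, coeff_C_mul_X_pow, coeff_zero] at h2
    rw [← h2, Finset.sum_eq_single i]
    · rw [if_pos rfl]
    · intro j _ hj
      rw [if_neg]
      intro h3
      exact hj (Fin.ext h3.symm)
    · intro h3
      exact absurd (Finset.mem_univ i) h3
  · rw [map_sum, ← hg]
    refine Finset.sum_congr rfl fun j _ => ?_
    rw [map_mul, aeval_C, map_pow, aeval_X, Algebra.smul_def]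

/-- The conjecture of Parshin. -/
theorem parshin (hq : q ≠ 0) (hP : Pure T A) {k k' m' : ℤ} (h1 : OntoAt T A (2 * k) k)
    (h2 : OntoAt T A m' k') (hI : InjAt T A₂ n₂ d)
    {D : Pairing T A (2 * k) k m' k'} (hD : IsPairing D)
    {cr : T.M A (2 * k) k → T.M A m' k' → K.R} (hcr : IsCross K D cr) {n : ℤ} (hn : n ≠ 2 * k)
    (x : T.M A n k) : x = 0 := by
  obtain ⟨p, hp, hpF⟩ := ex_poly hT hK hI
  set t : ℚ := q ^ (d - k) with ht
  have ht0 : t ≠ 0 := zpow_ne_zero _ hq
  have htΩ : (t : Ω) ≠ 0 := Rat.cast_ne_zero.2 ht0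
  obtain ⟨g, hpg, hg⟩ := exists_eq_pow_rootMultiplicity_mul_and_not_dvd p hp t
  set m := rootMultiplicity t p with hm
  have hgt : g.eval t ≠ 0 := fun h => hg (dvd_iff_isRoot.2 h)
  -- the operator `F - t`
  have h3 : ∀ n : ℤ, opE hK n k (K.F - algebraMap ℚ K.R t) = (t : Ω) • Nop hT A n k := by
    intro n
    ext z
    rw [map_sub, onE_alg, LinearMap.sub_apply, opE_apply, hK.F_E, Module.algebraMap_end_apply,
      LinearMap.smul_apply, nop_apply, smul_sub]
  have hN : ∀ (n : ℤ) (y : T.E A n k),
      ((Nop hT A n k) ^ m) (opE hK n k (aeval K.F g) y) = 0 := by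
    intro n y
    have h4 : aeval K.F p = (K.F - algebraMap ℚ K.R t) ^ m * aeval K.F g := by
      conv_lhs => rw [hpg]
      rw [map_mul, map_pow, map_sub, aeval_X, aeval_C]
    have h5 : opE hK n k (aeval K.F p) y = 0 := by rw [hpF, map_zero, LinearMap.zero_apply]
    rw [h4, map_mul, map_pow, h3, _root_.smul_pow, Module.End.mul_apply,
      LinearMap.smul_apply] at h5
    exact (smul_eq_zero.1 h5).resolve_left (pow_ne_zero _ htΩ)
  have hG1 : ∀ n : ℤ, n ≠ 2 * k → ∀ y : T.E A n k, opE hK n k (aeval K.F g) y = 0 := by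
    intro n hn y
    have h4 : ∀ (r : ℕ) (z : T.E A n k), ((Nop hT A n k) ^ r) z = 0 → z = 0 := by
      intro r
      induction r with
      | zero => exact fun z hz => hz
      | succ r ih =>
        intro z hz
        rw [pow_succ, Module.End.mul_apply] at hz
        exact hP n k hn z ((nop_zero hT).1 (ih _ hz))
    exact h4 m _ (hN n y)
  have hG2 : ∀ y : T.E A (2 * k) k,
      opE hK (2 * k) k (aeval K.F g) (Nop hT A (2 * k) k y) = 0 := by
    intro y
    have h4 : opE hK (2 * k) k (aeval K.F g) (Nop hT A (2 * k) k y) =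
        Nop hT A (2 * k) k (opE hK (2 * k) k (aeval K.F g) y) := by
      have h5 : aeval K.F g * (K.F - algebraMap ℚ K.R t) =
          (K.F - algebraMap ℚ K.R t) * aeval K.F g := by
        have h6 : K.F - algebraMap ℚ K.R t = aeval K.F (X - C t) := by
          rw [map_sub, aeval_X, aeval_C]
        rw [h6, ← map_mul, ← map_mul, mul_comm]
      have h7 := congrArg (fun u => opE hK (2 * k) k u y) h5
      simp only [map_mul, h3, Module.End.mul_apply, LinearMap.smul_apply, map_smul] at h7
      exact smul_right_injective _ htΩ h7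
    have h8 : ∀ (r : ℕ) (z : T.E A (2 * k) k), ((Nop hT A (2 * k) k) ^ r) z = 0 →
        Nop hT A (2 * k) k z = 0 := by
      intro r
      induction r with
      | zero =>
        intro z hz
        have h9 : z = 0 := hz
        rw [h9, map_zero]
      | succ r ih =>
        intro z hz
        rw [pow_succ, Module.End.mul_apply] at hz
        exact nop_ss hT h1 z (ih _ hz)
    rw [h4]
    exact h8 m _ (hN _ y)
  have hG3 : ∀ y : T.E A (2 * k) k, T.frob _ _ _ y = y →
      opE hK (2 * k) k (aeval K.F g) y = ((g.eval t : ℚ) : Ω) • y := by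
    intro y hy
    have h4 : opE hK (2 * k) k K.F y = (t : Ω) • y := by rw [opE_apply, hK.F_E, hy]
    rw [onE_aeval, aeval_eigen _ h4]
    congr 1
    rw [eval_map]
    exact eval₂_at_apply (algebraMap ℚ Ω) t
  -- the projector onto the invariant classes
  obtain ⟨ma, a, -, ha, ha'⟩ := ex_basis hT A (2 * k) k
  obtain ⟨mb, b, -, hb, -⟩ := ex_basis hT A m' k'
  obtain ⟨Cm, hCm⟩ := ex_dual (fun i j => D.int (a i) (b j))
    (rat_indep _ fun c hc => indep_int hT hD h2 b hb a ha' c hc)
  let z : K.R := ∑ i, ∑ j, Cm i j • cr (a i) (b j)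
  have hz : ∀ y : T.E A (2 * k) k, opE hK (2 * k) k z y =
      ∑ i, ∑ j, (Cm i j : Ω) • bil hD y (T.reg _ _ _ (b j)) • T.reg _ _ _ (a i) := by
    intro y
    rw [map_sum, LinearMap.sum_apply]
    refine Finset.sum_congr rfl fun i _ => ?_
    rw [map_sum, LinearMap.sum_apply]
    refine Finset.sum_congr rfl fun j _ => ?_
    rw [onE_smul, opE_apply, hcr.onE]
    rfl
  have hz1 : ∀ l, opE hK (2 * k) k z (T.reg _ _ _ (a l)) = T.reg _ _ _ (a l) := by
    intro l
    rw [hz, Finset.sum_eq_single l]
    · rw [← Finset.sum_congr rfl fun j _ => (smul_smul _ _ _).symm, ← Finset.sum_smul]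
      have h4 : ∑ j, (Cm l j : Ω) * bil hD (T.reg _ _ _ (a l)) (T.reg _ _ _ (b j)) = 1 := by
        have h5 := congrArg (fun r : ℚ => (r : Ω)) (hCm l l)
        rw [if_pos rfl, Rat.cast_one, Rat.cast_sum] at h5
        rw [← h5]
        refine Finset.sum_congr rfl fun j _ => ?_
        rw [bil_apply, hD.reg, Rat.cast_mul]
      rw [h4, one_smul]
    · intro i _ hi
      rw [← Finset.sum_congr rfl fun j _ => (smul_smul _ _ _).symm, ← Finset.sum_smul]
      have h4 : ∑ j, (Cm i j : Ω) * bil hD (T.reg _ _ _ (a l)) (T.reg _ _ _ (b j)) = 0 := by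
        have h5 := congrArg (fun r : ℚ => (r : Ω)) (hCm i l)
        rw [if_neg hi, Rat.cast_zero, Rat.cast_sum] at h5
        rw [← h5]
        refine Finset.sum_congr rfl fun j _ => ?_
        rw [bil_apply, hD.reg, Rat.cast_mul]
      rw [h4, zero_smul]
    · intro h
      exact absurd (Finset.mem_univ l) h
  have hz2 : ∀ y : T.E A (2 * k) k, T.frob _ _ _ y = y → opE hK (2 * k) k z y = y := by
    intro y hy
    have h4 := h1.1 y hy
    rw [← ha] at h4
    refine Submodule.span_induction (p := fun w _ => opE hK (2 * k) k z w = w) ?_ (map_zero _)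
      ?_ ?_ h4
    · rintro _ ⟨l, rfl⟩
      exact hz1 l
    · intro u v _ _ hu hv
      rw [map_add, hu, hv]
    · intro c u _ hu
      rw [map_smul, hu]
  have hz3 : ∀ y : T.E A (2 * k) k, opE hK (2 * k) k z (Nop hT A (2 * k) k y) = 0 := by
    intro y
    rw [hz]
    refine Finset.sum_eq_zero fun i _ => Finset.sum_eq_zero fun j _ => ?_
    rw [nop_P, zero_smul, smul_zero]
  have hz4 : ∀ n : ℤ, n ≠ 2 * k → ∀ y : T.E A n k, opE hK n k z y = 0 := by
    intro n hn y
    rw [map_sum, LinearMap.sum_apply]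
    refine Finset.sum_eq_zero fun i _ => ?_
    rw [map_sum, LinearMap.sum_apply]
    refine Finset.sum_eq_zero fun j _ => ?_
    rw [onE_smul, opE_apply, hcr.onE_zero _ _ n k hn, smul_zero]
  -- the two correspondences are equal
  have hkey : (g.eval t)⁻¹ • aeval K.F g - z = 0 := by
    apply hK.cyc_inj
    have h0 : K.cyc 0 = 0 := (opC hK).map_zero
    rw [h0]
    by_contra hne
    have h4 : LinearIndependent ℚ (fun _ : Fin 1 => K.cyc ((g.eval t)⁻¹ • aeval K.F g - z)) :=
      LinearIndependent.of_subsingleton 0 hne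
    refine (hI 1 _ h4).ne_zero 0 (hK.faithful k _ fun n y => ?_)
    rw [← opE_apply hK, map_sub, LinearMap.sub_apply, onE_smul]
    by_cases hn : n = 2 * k
    · subst hn
      have := hT.finite A (2 * k) k
      obtain ⟨u, hu⟩ := split (Nop hT A (2 * k) k) (nop_ss hT h1) y
      have hu' := (nop_zero hT).1 hu
      have h5 : y = (y - Nop hT A (2 * k) k u) + Nop hT A (2 * k) k u := by abel
      rw [h5, map_add, map_add, hG2, hz3, hG3 _ hu', hz2 _ hu', add_zero, add_zero, smul_smul,
        ← Rat.cast_mul, inv_mul_cancel₀ hgt, Rat.cast_one, one_smul, sub_self]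
    · rw [hG1 n hn, hz4 n hn, smul_zero, sub_zero]
  have h4 := congrArg (fun u => opM hK n k u x) hkey
  simp only [map_sub, map_smul, LinearMap.sub_apply, LinearMap.smul_apply, map_zero,
    LinearMap.zero_apply] at h4
  rw [onM_aeval, smul_smul, inv_mul_cancel₀ hgt, one_smul] at h4
  have h5 : opM hK n k z x = 0 := by
    rw [map_sum, LinearMap.sum_apply]
    refine Finset.sum_eq_zero fun i _ => ?_
    rw [map_sum, LinearMap.sum_apply]
    refine Finset.sum_eq_zero fun j _ => ?_
    rw [map_smul, LinearMap.smul_apply, opM_apply, hcr.onM_zero _ _ n k hn, smul_zero]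
  rw [h5, sub_zero] at h4
  exact h4

end

end Pool.Agent.K6.H28.RV
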