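import Pool.Agent.K6.H28.RV.Rays
import Pool.Agent.K6.H28.RV.Geisser

/-!
# Q1 in all degrees
-/

set_option autoImplicit false
set_option linter.unusedSectionVars false
set_option linter.unusedVariables false

namespace Pool.Agent.K6.H28.RV

open Module Pool.Agent.W495.FM Pool.Agent.K6.H28.FF
open scoped TensorProduct

noncomputable section

variable {Ω : Type} [Field Ω] [CharZero Ω] {V : Type} {T : Homology Ω V} (hT : IsHomology T)

/-- At the generic points of dimension `d` the motivic homology is isomorphic to the generalised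
eigenspace. -/
def GenGood (S : Strata T) (A : S.C) (d n k : ℤ) : Prop :=
  (∀ B, S.dim B < d → ∀ x, (no hT S A B n k).InG x → ∃ (B' : S.C) (h : B ≤ B'), S.dim B' < d ∧
    ∃ t, (no hT S A B' n k).lam t = (aRes hT A h n k).g x) ∧
  ∀ B, S.dim B < d → ∀ t, (no hT S A B n k).lam t = 0 → ∃ (B' : S.C) (h : B ≤ B'),
    S.dim B' < d ∧ (aRes hT A h n k).ten t = 0

theorem genGood_of {S : Strata T} {A : S.C} {d n k : ℤ}
    (h : ∀ B, S.dim B < d → (no hT S A B n k).Good) : GenGood hT S A d n k := by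
  constructor
  · intro B hB x hx
    obtain ⟨t, ht⟩ := (h B hB).2 x hx
    exact ⟨B, le_rfl, hB, (aRes hT A (le_refl B) n k).ten t, by rw [Arrow.lam_ten, ht]⟩
  · intro B hB t ht
    have h1 : t = 0 := (h B hB).1 (by rw [ht, map_zero])
    exact ⟨B, le_rfl, hB, by rw [h1, map_zero]⟩

/-- Open subschemes. -/
theorem open_good {S : Strata T} (hS : IsStrata S) {A B : S.C}
    (hA : ∀ n k, (nc hT S A n k).Good) (hB : ∀ n k, (nc hT S (A ⊓ B) n k).Good) (n k : ℤ) :
    (no hT S A B n k).Good := by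
  obtain ⟨m, rfl⟩ : ∃ m, n = m + 1 := ⟨n - 1, by ring⟩
  exact five (aInc hT (inf_le_left : A ⊓ B ≤ A) (m + 1) k) (aJ hT A B (m + 1) k)
    (aDel hT A B m k) (aInc hT (inf_le_left : A ⊓ B ≤ A) m k)
    (hS.exact A B (m + 1) k).1.1 (hS.exact A B m k).2.1.1 (hS.exact A B m k).2.2.1
    (ex_inc_j hT hS A B (m + 1) k) (ex_j_del hT hS A B m k) (ex_del_inc hT hS A B m k)
    (hB (m + 1) k) (hA (m + 1) k) (hB m k) (hA m k)

/-- Descent. -/
theorem genGood_maps {S S' : Strata T} {Y : S'.C} {Z : S.C}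
    {d' d r n k : ℤ} (hD : Maps S' Y d' S Z d r)
    (hG : GenGood hT S' Y d' (n + 2 * r) (k + r)) : GenGood hT S Z d n k := by
  constructor
  · intro B hB x hx
    obtain ⟨B', hB', hD⟩ := hD B hB
    obtain ⟨α, hD⟩ := hD n k
    obtain ⟨B'', h, hB'', t, ht⟩ := hG.1 B' hB' ((α.arr hT).g x) ((α.arr hT).inG hx)
    obtain ⟨B₁, h₁, hB₁, β, hβ⟩ := hD B'' h hB''
    refine ⟨B₁, h₁, hB₁, (β.arr hT).ten t, ?_⟩
    rw [Arrow.lam_ten, ht]
    exact (arr_g hT _ _).trans ((congrArg _ ((arr_g hT _ _).trans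
      (congrArg _ (arr_g hT _ _)))).trans ((hβ.2 x).trans (arr_g hT _ _).symm))
  · intro B hB t ht
    obtain ⟨B', hB', hD⟩ := hD B hB
    obtain ⟨α, hD⟩ := hD n k
    obtain ⟨B'', h, hB'', h0⟩ := hG.2 B' hB' ((α.arr hT).ten t) (by
      rw [Arrow.lam_ten, ht, map_zero])
    obtain ⟨B₁, h₁, hB₁, β, hβ⟩ := hD B'' h hB''
    refine ⟨B₁, h₁, hB₁, ?_⟩
    have h1 : ∀ s : Ω ⊗[ℚ] (no hT S Z B n k).M, (β.arr hT).ten
        ((aRes hT Y h (n + 2 * r) (k + r)).ten ((α.arr hT).ten s)) =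
        (aRes hT Z h₁ n k).ten s := by
      intro s
      induction s using TensorProduct.induction_on with
      | zero => simp only [map_zero]
      | tmul c x =>
        change c ⊗ₜ[ℚ] _ = c ⊗ₜ[ℚ] _
        exact congrArg _ (hβ.1 x)
      | add x y hx hy => rw [map_add, map_add, map_add, map_add, hx, hy]
    rw [← h1 t, h0, map_zero]

/-- A closed subset, from its generic points and its smaller closed subsets. -/
theorem closed_good {S : Strata T} (hS : IsStrata S) {Z : S.C} {e : ℤ} (he : 0 ≤ e)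
    (hG : ∀ n k, GenGood hT S Z e n k)
    (hC : ∀ C, C ≤ Z → S.dim C < e → ∀ n k, (nc hT S C n k).Good) (n k : ℤ) :
    (nc hT S Z n k).Good := by
  obtain ⟨m, rfl⟩ : ∃ m, n = m + 1 := ⟨n - 1, by ring⟩
  have hb : S.dim (⊥ : S.C) < e := by rw [hS.dim_bot]; omega
  constructor
  · rw [injective_iff_map_eq_zero]
    intro t ht
    obtain ⟨B, h, hB, h0⟩ := (hG (m + 1) k).2 ⊥ hb ((aJ hT Z ⊥ (m + 1) k).ten t) (by
      rw [Arrow.lam_ten, ht, map_zero])
    rw [comp_t hT (hS.j_res Z h (m + 1) k) t] at h0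
    obtain ⟨z, rfl⟩ := (ex_inc_j' hT hS Z B (m + 1) k t).1 h0
    rw [Arrow.lam_ten] at ht
    obtain ⟨u, hu, hu'⟩ := Arrow.fitting _ _ (ex_del_inc hT hS Z B (m + 1) k) _
      (Node.inG_lam _ z) ht
    obtain ⟨B', h', hB', s, hs⟩ := (hG (m + 1 + 1) k).1 B hB u hu
    have h1 : (nc hT S (Z ⊓ B') (m + 1) k).lam ((aInc hT (inf_le_inf_left Z h') (m + 1) k).ten z) =
        (nc hT S (Z ⊓ B') (m + 1) k).lam ((aDel hT Z B' (m + 1) k).ten s) := by
      rw [Arrow.lam_ten, Arrow.lam_ten, hs, ← hu']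
      exact (comm_g hT (hS.del_res Z h' (m + 1) k) u).symm
    have h2 := (hC _ inf_le_left (dim_inf hS hB') (m + 1) k).1 h1
    have e1 := comp_t hT (hS.inc_inc (inf_le_inf_left Z h') (inf_le_left : Z ⊓ B' ≤ Z)
      (inf_le_left : Z ⊓ B ≤ Z) (m + 1) k) z
    rw [← e1, h2]
    exact (ex_del_inc' hT hS Z B' (m + 1) k _).2 ⟨s, rfl⟩
  · intro w hw
    obtain ⟨B, h, hB, v, hv⟩ := (hG (m + 1) k).1 ⊥ hb ((aJ hT Z ⊥ (m + 1) k).g w)
      ((aJ hT Z ⊥ (m + 1) k).inG hw)
    rw [comp_g hT (hS.j_res Z h (m + 1) k) w] at hv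
    have h1 : (aDel hT Z B m k).ten v = 0 := by
      apply (hC _ inf_le_left (dim_inf hS hB) m k).1
      rw [Arrow.lam_ten, hv, map_zero]
      exact (ex_j_del hT hS Z B m k _).2 ⟨w, rfl⟩
    obtain ⟨t, ht⟩ := (ex_j_del' hT hS Z B m k v).1 h1
    have h2 : (aJ hT Z B (m + 1) k).g (w - (nc hT S Z (m + 1) k).lam t) = 0 := by
      rw [map_sub, ← Arrow.lam_ten, ht, hv, sub_self]
    obtain ⟨y, hy, hy'⟩ := Arrow.fitting _ _ (ex_inc_j hT hS Z B (m + 1) k) _
      (inG_sub hw (Node.inG_lam _ t)) h2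
    obtain ⟨y', rfl⟩ := (hC _ inf_le_left (dim_inf hS hB) (m + 1) k).2 y hy
    refine ⟨t + (aInc hT (inf_le_left : Z ⊓ B ≤ Z) (m + 1) k).ten y', ?_⟩
    rw [map_add, Arrow.lam_ten, hy']
    abel

variable {U : Family T} (hU : IsUniverse U)

include hT hU

/-- The conjecture of Tate and Beilinson for all closed subsets. -/
theorem all_good_nat {D : ℤ}
    (h : ∀ t : U.I, U.d t ≤ D → ∀ n k : ℤ, (nc hT (U.S t) (U.Y t) n k).Good)
    (N : ℕ) : (N : ℤ) - 1 ≤ D → ∀ (t : U.I) (C : (U.S t).C), C ≤ U.Y t →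
      (U.S t).dim C ≤ (N : ℤ) - 1 → ∀ n k : ℤ, (nc hT (U.S t) C n k).Good := by
  induction N with
  | zero =>
    intro _ t C _ hC n k
    exact empty_good hT hU t (by omega) n k
  | succ N ih =>
    intro hN t C hCY hC n k
    have hC' : (U.S t).dim C ≤ N := by
      push_cast at hC
      omega
    obtain ⟨t', ht', hD⟩ := hU.models t C N hCY (Int.natCast_nonneg N) hC'
    have hN' : (N : ℤ) - 1 ≤ D := by
      push_cast at hN
      omega
    refine closed_good hT (hU.strata t) (Int.natCast_nonneg N) (fun n k => ?_)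
      (fun C' hC'' hd => ih hN' t C' (hC''.trans hCY) (by omega)) n k
    refine genGood_maps hT hD ?_
    exact genGood_of hT fun B hB => open_good hT (hU.strata t')
      (h t' (by push_cast at hN; omega)) (fun n k =>
        ih hN' t' _ inf_le_left (Int.le_sub_one_of_lt (dim_inf (hU.strata t') hB)) n k) _ _

/-- The conjecture of Parshin. -/
theorem parshin_of {q : ℚ} (hC : HasCorrespondences U q) {t : U.I} (h1 : TateTo U (U.d t))
    (h2 : BeilinsonTo U (2 * U.d t)) {n k : ℤ} (hn : n ≠ 2 * k) (x : T.M (U.X t) n k) : x = 0 := by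
  obtain ⟨t₂, ht₂, K, hK, hKD⟩ := hC.2 t
  obtain ⟨D, hD, c, hc⟩ := hKD k
  exact parshin hT hK hC.1 (hU.pure t) (h1 t le_rfl k) (h1 t le_rfl _)
    (h2 t₂ ht₂.le (U.d t)) hD hc hn x

theorem all_good {q : ℚ} (hC : HasCorrespondences U q) {N : ℤ} (h1 : TateTo U N)
    (h2 : BeilinsonTo U (2 * N)) (t : U.I) {C : (U.S t).C} (hC : C ≤ U.Y t)
    (hd : (U.S t).dim C ≤ N) (n k : ℤ) : (nc hT (U.S t) C n k).Good := by
  obtain ⟨M, hM⟩ := ex_dim hT hU t C
  refine all_good_nat hT hU (D := N) (fun t ht n k => ?_) M (by omega) t C hC hM.le n k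
  have h0 := hU.nonneg t
  by_cases hn : n = 2 * k
  · subst hn
    exact ⟨(injAt_iff hT _ _ _).1 (h2 t (by omega) k), (ontoAt_iff hT _ _ _).1 (h1 t ht k)⟩
  · exact ⟨zero_inj hT (parshin_of hT hU ‹HasCorrespondences U q› (fun t' ht' => h1 t' (by omega))
      (fun t' ht' => h2 t' (by omega)) hn), (noInv_noG hT (hU.pure t n k hn)).onto⟩

/-- Q1 in all degrees for `Z` if its closed subsets satisfy the conjecture. -/
theorem all_q1 {t : U.I} {Z : (U.S t).C} {e : ℤ} (h : ∀ n k : ℤ, (nc hT (U.S t) Z n k).Good)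
    (hC : ∀ C : (U.S t).C, C ≤ Z → (U.S t).dim C < e → ∀ n k : ℤ,
      (nc hT (U.S t) C n k).Good) : AllQ1 (U.S t) Z e :=
  fun i j => gen_of_onto hT (hU.strata t) fun B hB =>
    (open_good hT (hU.strata t) h (hC _ inf_le_left (dim_inf (hU.strata t) hB)) _ _).2

/-- Bounded dimension. -/
theorem allQ1_of {q : ℚ} (hC : HasCorrespondences U q) {N : ℤ} (h1 : TateTo U N)
    (h2 : BeilinsonTo U (2 * N)) :
    (∀ (t : U.I) (Z : (U.S t).C) (e : ℤ), Variety U t Z e → e ≤ N → AllQ1 (U.S t) Z e) ∧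
      ∀ t : U.I, U.d t ≤ N + 1 → TB T (U.X t) → AllQ1 (U.S t) (U.Y t) (U.d t) := by
  constructor
  · rintro t Z e ⟨hZ, hd, he⟩ heN
    exact all_q1 hT hU (all_good hT hU hC h1 h2 t hZ (by omega))
      fun C hC' hd' => all_good hT hU hC h1 h2 t (hC'.trans hZ) (by omega)
  · intro t h hTB
    exact all_q1 hT hU ((tb_iff T hT _).1 hTB)
      fun C hC' hd => all_good hT hU hC h1 h2 t hC' (by omega)

theorem all_of_all {q : ℚ} (hC : HasCorrespondences U q) (h1 : ∀ N, TateTo U N)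
    (h2 : ∀ N, BeilinsonTo U N) : Q1Everywhere U :=
  fun t Z e hZ => (allQ1_of hT hU hC (h1 e) (h2 _)).1 t Z e hZ le_rfl

theorem rays_of_allQ1 (h : Q1Everywhere U) (N : ℤ) : Rays U 1 N ∧ Rays U 2 N :=
  ⟨fun t Z e hZ _ => (ray_iff hT (hU.strata t) hZ.2.1.le 1).2 fun j _ => h t Z e hZ _ _,
    fun t Z e hZ _ => (ray_iff hT (hU.strata t) hZ.2.1.le 2).2 fun j _ => h t Z e hZ _ _⟩

/-- Bounded dimension. -/
theorem from_rays (hW : HasWeights T) {q : ℚ} (hC : HasCorrespondences U q) : FromRays U := by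
  refine ⟨fun N h => ?_, fun t Z e hZ h h' => ?_⟩
  · obtain ⟨h1, h2⟩ := ((ray_theorem hT hW hU).2.1 N).1 h
    constructor
    · intro s W c hc hcN hcN'
      exact (allQ1_of hT hU hC (N := c) (h1.mono (by omega))
        fun u hu => h2 u (by omega)).1 s W c hc le_rfl
    · intro s hs hs' hTB
      exact (allQ1_of hT hU hC (N := U.d s - 1) (h1.mono (by omega))
        fun u hu => h2 u (by omega)).2 s (by omega) hTB
  · have h1 := tate_of_ray hT hW hU hZ h
    have h2 := beilinson_of_ray hT hW hU hZ h h'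
    have he := hZ.2.2
    constructor
    · intro s W c hc hce
      have hc0 := hc.2.2
      exact (allQ1_of hT hU hC (N := c) (h1.mono (by omega))
        fun u hu => h2 u (by omega)).1 s W c hc le_rfl
    · intro s hs hTB
      have hs0 := hU.nonneg s
      exact (allQ1_of hT hU hC (N := U.d s - 1) (h1.mono (by omega))
        fun u hu => h2 u (by omega)).2 s (by omega) hTB

theorem all_of_rays (hW : HasWeights T) (h : ∀ N, Rays U 1 N) :
    (∀ N, TateTo U N) ∧ ∀ N, BeilinsonTo U N := by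
  have hR := ray_theorem hT hW hU
  refine ⟨fun N => ?_, fun N => ((hR.2.1 N).1 (h N)).2⟩
  have h1 := ((hR.2.1 (N + 1)).1 (h (N + 1))).1
  rwa [add_sub_cancel_right] at h1

theorem all_degrees (hW : HasWeights T) {q : ℚ} (hC : HasCorrespondences U q) :
    AllDegrees U := by
  refine ⟨⟨fun h N => (rays_of_allQ1 hT hU h N).1, fun h => ?_⟩, ⟨fun h N => ?_, fun h => ?_⟩⟩
  · obtain ⟨h1, h2⟩ := all_of_rays hT hU hW h
    exact all_of_all hT hU hC h1 h2
  · obtain ⟨n, hn, hd⟩ := hU.space (max N 0) (le_max_right _ _)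
    have hself := variety_self hT hU n
    exact ⟨n, U.Y n, U.d n, hself, by rw [hd]; exact le_max_left _ _,
      (rays_of_allQ1 hT hU h _).1 n _ _ hself le_rfl, (rays_of_allQ1 hT hU h _).2 n _ _ hself le_rfl⟩
  · refine all_of_all hT hU hC (fun N => ?_) fun N => ?_
    · obtain ⟨t, Z, e, hZ, he, h1, -⟩ := h (N + 1)
      exact (tate_of_ray hT hW hU hZ h1).mono (by omega)
    · obtain ⟨t, Z, e, hZ, he, h1, h2⟩ := h (N + 1)
      exact fun t' ht' => beilinson_of_ray hT hW hU hZ h1 h2 t' (by omega)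

/-- The independence of the prime. -/
theorem independence (hW : HasWeights T) {Ω' : Type} [Field Ω'] [CharZero Ω'] {V' : Type}
    {T' : Homology Ω' V'} (hT' : IsHomology T') (hW' : HasWeights T') {U' : Family T'}
    (hU' : IsUniverse U') {q' : ℚ} (hC' : HasCorrespondences U' q') (hcomp : IsComparison U U') :
    Independence U U' := by
  have hR' := ray_theorem hT' hW' hU'
  have hall : (∀ N, Rays U 1 N) → (∀ N, TateTo U' N) ∧ ∀ N, BeilinsonTo U' N := by
    intro h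
    obtain ⟨h1, h2⟩ := all_of_rays hT hU hW h
    exact ⟨fun N => tate_compare hT hT' hcomp (h1 N),
      fun N => beilinson_compare hT hT' hcomp (h1 N) (h2 N)⟩
  refine ⟨fun t Z e t' hZ hd hTB h => ?_, fun h => ?_, fun h => ?_⟩
  · have h1 := tate_of_ray hT hW hU hZ h
    have h3 := tate_compare hT hT' hcomp h1
    refine ⟨((hR'.2.2.2 t' hTB).1).2 (h3.mono (by omega)), fun h2 => ?_⟩
    have h4 := beilinson_compare hT hT' hcomp h1 (beilinson_of_ray hT hW hU hZ h h2)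
    exact (((hR'.2.2.2 t' hTB).2).2 ⟨h3.mono (by omega), fun s hs => h4 s (by omega)⟩).2
  · intro N
    obtain ⟨h1, h2⟩ := hall h
    exact (hR'.2.1 N).2 ⟨h1 _, h2 _⟩
  · obtain ⟨h1, h2⟩ := hall fun N => (rays_of_allQ1 hT hU h N).1
    exact all_of_all hT' hU' hC' h1 h2

end

end Pool.Agent.K6.H28.RV
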