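import Pool.Agent.K6.H28.FF.Alg
import Pool.Agent.K6.H28.RV.Defs

/-!
# Poincaré duality and intersection numbers
-/

set_option autoImplicit false
set_option linter.unusedSectionVars false
set_option linter.unusedVariables false

namespace Pool.Agent.K6.H28.RV

open Module Pool.Agent.W495.FM Pool.Agent.K6.H28.FF

noncomputable section

/-- Independence of rational vectors does not depend on the field of coefficients. -/
theorem rat_indep {Ω : Type} [Field Ω] [CharZero Ω] {ι B : Type} [Fintype ι] (v : ι → B → ℚ)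
    (h : ∀ c : ι → Ω, (∀ b, ∑ i, c i * (v i b : Ω) = 0) → c = 0)
    (q : ι → ℚ) (hq : ∀ b, ∑ i, q i * v i b = 0) : q = 0 := by
  have h2 := h (fun i => (q i : Ω)) fun b => by
    rw [← Rat.cast_zero, ← hq b, Rat.cast_sum]
    exact Finset.sum_congr rfl fun i _ => (Rat.cast_mul _ _).symm
  funext i
  exact Rat.cast_eq_zero.1 (congrFun h2 i)

theorem rat_transfer {Ω Ω' : Type} [Field Ω] [CharZero Ω] [Field Ω'] [CharZero Ω'] {ι B : Type}
    [Fintype ι] (v : ι → B → ℚ) (h : ∀ c : ι → Ω, (∀ b, ∑ i, c i * (v i b : Ω) = 0) → c = 0)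
    (c : ι → Ω') (hc : ∀ b, ∑ i, c i * (v i b : Ω') = 0) : c = 0 := by
  funext i
  refine (Module.forall_dual_apply_eq_zero_iff ℚ (c i)).1 fun f => ?_
  have h3 := rat_indep v h (fun i => f (c i)) fun b => by
    have h4 := congrArg f (hc b)
    rw [map_sum, map_zero] at h4
    rw [← h4]
    refine Finset.sum_congr rfl fun i _ => ?_
    have h5 : c i * (v i b : Ω') = (v i b : ℚ) • c i := by
      rw [Algebra.smul_def, mul_comm]
      rfl
    rw [h5, map_smul, smul_eq_mul, mul_comm]
  exact congrFun h3 i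

/-- A semisimple eigenvalue zero. -/
theorem split {Ω E : Type} [Field Ω] [AddCommGroup E] [Module Ω E] [FiniteDimensional Ω E]
    (N : E →ₗ[Ω] E) (h : ∀ x, N (N x) = 0 → N x = 0) (y : E) : ∃ z, N (y - N z) = 0 := by
  have h1 : LinearMap.ker (N * N) = LinearMap.ker N := by
    ext x
    rw [LinearMap.mem_ker, LinearMap.mem_ker, Module.End.mul_apply]
    exact ⟨h x, fun hx => by rw [hx, map_zero]⟩
  have h2 : LinearMap.range (N * N) = LinearMap.range N := by
    apply Submodule.eq_of_le_of_finrank_eq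
    · rintro _ ⟨x, rfl⟩
      exact ⟨N x, rfl⟩
    · have h3 := LinearMap.finrank_range_add_finrank_ker N
      have h4 := LinearMap.finrank_range_add_finrank_ker (N * N)
      rw [h1] at h4
      omega
  have h3 : N y ∈ LinearMap.range (N * N) := by
    rw [h2]
    exact ⟨y, rfl⟩
  obtain ⟨z, hz⟩ := h3
  refine ⟨z, ?_⟩
  rw [map_sub, ← hz]
  exact sub_self _

variable {Ω : Type} [Field Ω] [CharZero Ω] {V : Type} {T : Homology Ω V} (hT : IsHomology T)
  {A : V} {n k n' k' : ℤ} {D : Pairing T A n k n' k'} (hD : IsPairing D)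

/-- The bilinear form. -/
def bil {D : Pairing T A n k n' k'} (hD : IsPairing D) : T.E A n k →ₗ[Ω] T.E A n' k' →ₗ[Ω] Ω :=
  LinearMap.mk₂ Ω D.P
    (fun x x' y => by
      rw [← (hD.left y).map_apply, ← (hD.left y).map_apply, ← (hD.left y).map_apply, map_add])
    (fun c x y => by
      rw [← (hD.left y).map_apply, ← (hD.left y).map_apply, map_smul])
    (fun x y y' => by
      rw [← (hD.right x).map_apply, ← (hD.right x).map_apply, ← (hD.right x).map_apply, map_add])
    (fun c x y => by
      rw [← (hD.right x).map_apply, ← (hD.right x).map_apply, map_smul])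

theorem bil_apply (x : T.E A n k) (y : T.E A n' k') : bil hD x y = D.P x y := rfl

include hT

/-- The operator `frob - 1`. -/
def Nop (hT : IsHomology T) (A : V) (n k : ℤ) : T.E A n k →ₗ[Ω] T.E A n k := (hT.lin A n k).map - 1

theorem nop_apply (A : V) (n k : ℤ) (x : T.E A n k) :
    Nop hT A n k x = T.frob A n k x - x := by
  change (hT.lin A n k).map x - x = _
  rw [IsLin.map_apply]

theorem nop_zero {A : V} {n k : ℤ} {x : T.E A n k} : Nop hT A n k x = 0 ↔ T.frob A n k x = x := by
  rw [nop_apply, sub_eq_zero]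

theorem nop_ss {n k : ℤ} (h : OntoAt T A n k) (x : T.E A n k)
    (hx : Nop hT A n k (Nop hT A n k x) = 0) : Nop hT A n k x = 0 := by
  rw [nop_zero] at hx ⊢
  rw [nop_apply] at hx
  exact h.2 x hx

theorem P_nop (x : T.E A n k) (hx : T.frob _ _ _ x = x) (z : T.E A n' k') :
    bil hD x (Nop hT A _ _ z) = 0 := by
  have h1 : bil hD (T.frob _ _ _ x) (T.frob _ _ _ z) = bil hD x z := hD.inv x z
  rw [hx] at h1
  rw [nop_apply, map_sub, h1, sub_self]

theorem nop_P (x : T.E A n k) (b : T.M A n' k') :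
    bil hD (Nop hT A _ _ x) (T.reg _ _ _ b) = 0 := by
  have h1 : bil hD (T.frob _ _ _ x) (T.frob _ _ _ (T.reg _ _ _ b)) = bil hD x (T.reg _ _ _ b) :=
    hD.inv x (T.reg _ _ _ b)
  rw [hT.frob_reg] at h1
  rw [nop_apply, map_sub, LinearMap.sub_apply, h1, sub_self]

/-- Invariant classes orthogonal to all cycles. -/
theorem eq_zero_of_orth (hO : OntoAt T A n' k') {ι : Type} (b : ι → T.M A n' k')
    (hb : Submodule.span Ω (Set.range fun i => T.reg _ _ _ (b i)) =
      Submodule.span Ω (Set.range (T.reg A n' k')))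
    (x : T.E A n k) (hx : T.frob _ _ _ x = x)
    (h : ∀ i, bil hD x (T.reg _ _ _ (b i)) = 0) : x = 0 := by
  have := hT.finite A n' k'
  apply hD.nondeg
  intro y
  obtain ⟨z, hz⟩ := split (Nop hT A n' k') (nop_ss hT hO) y
  have h1 := hO.1 _ ((nop_zero hT).1 hz)
  rw [← hb] at h1
  have h2 : bil hD x (y - Nop hT A _ _ z) = 0 := by
    refine Submodule.span_induction (p := fun w _ => bil hD x w = 0) ?_ (map_zero _) ?_ ?_ h1
    · rintro _ ⟨i, rfl⟩
      exact h i
    · intro u v _ _ hu hv
      rw [map_add, hu, hv, add_zero]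
    · intro c u _ hu
      rw [map_smul, hu, smul_zero]
  rw [map_sub, P_nop hT hD x hx, sub_zero] at h2
  exact h2

include hD in
/-- Independent cycles have independent intersection numbers. -/
theorem indep_int (hO : OntoAt T A n' k') {ι κ : Type} [Fintype κ]
    (b : ι → T.M A n' k')
    (hb : Submodule.span Ω (Set.range fun i => T.reg _ _ _ (b i)) =
      Submodule.span Ω (Set.range (T.reg A n' k')))
    (a : κ → T.M A n k) (ha : LinearIndependent Ω fun l => T.reg _ _ _ (a l)) (c : κ → Ω)
    (hc : ∀ i, ∑ l, c l * (D.int (a l) (b i) : Ω) = 0) : c = 0 := by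
  have h1 : ∑ l, c l • T.reg _ _ _ (a l) = 0 := by
    refine eq_zero_of_orth hT hD hO b hb _ ?_ fun i => ?_
    · have h2 : (hT.lin A n k).map (∑ l, c l • T.reg _ _ _ (a l)) =
          ∑ l, c l • T.reg _ _ _ (a l) := by
        rw [map_sum]
        refine Finset.sum_congr rfl fun l _ => ?_
        rw [map_smul, IsLin.map_apply, hT.frob_reg]
      rwa [IsLin.map_apply] at h2
    · rw [map_sum, LinearMap.sum_apply, ← hc i]
      refine Finset.sum_congr rfl fun l _ => ?_
      rw [map_smul, LinearMap.smul_apply, bil_apply, hD.reg, smul_eq_mul]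
  funext l
  exact Fintype.linearIndependent_iff.1 ha c h1 l

/-! ### Comparison -/

variable {Ω' : Type} [Field Ω'] [CharZero Ω'] {V' : Type} {T' : Homology Ω' V'} {A' : V'}
  {D' : Pairing T' A' n k n' k'} (hD' : IsPairing D')

include hD hD' in
theorem indep_compare (hO : OntoAt T A n' k') {κ : Type} [Fintype κ]
    (a : κ → T.M A n k) (ha : LinearIndependent Ω fun l => T.reg _ _ _ (a l))
    {e : T.M A n k → T'.M A' n k} {e' : T.M A n' k' → T'.M A' n' k'}
    (he : ∀ a b, D'.int (e a) (e' b) = D.int a b) :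
    LinearIndependent Ω' fun l => T'.reg _ _ _ (e (a l)) := by
  rw [Fintype.linearIndependent_iff]
  intro c hc
  have h1 := rat_transfer (Ω := Ω) (Ω' := Ω') (fun (l : κ) b => D.int (a l) b)
    (fun c hc => indep_int hT hD hO id rfl a ha c hc) c fun b => by
      have h2 := congrArg (fun x => bil hD' x (T'.reg _ _ _ (e' b))) hc
      rw [map_zero, LinearMap.zero_apply, map_sum, LinearMap.sum_apply] at h2
      rw [← h2]
      refine Finset.sum_congr rfl fun l _ => ?_
      rw [map_smul, LinearMap.smul_apply, bil_apply, hD'.reg, smul_eq_mul, he]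
  exact fun l => congrFun h1 l

end

end Pool.Agent.K6.H28.RV
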