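import Pool.Agent.K6.H28.FF.Final
import Pool.Agent.K6.H28.RV.Defs

/-!
# Q1 on the first rays
-/

set_option autoImplicit false
set_option linter.unusedSectionVars false
set_option linter.unusedVariables false

namespace Pool.Agent.K6.H28.RV

open Module Pool.Agent.W495.FM Pool.Agent.K6.H28.FF
open scoped TensorProduct

noncomputable section

variable {Ω : Type} [Field Ω] [CharZero Ω] {V : Type} {T : Homology Ω V} (hT : IsHomology T)
  (hW : HasWeights T)

include hT

/-- Q1 in the degrees `i > j`. -/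
theorem q1_iff_vanish {S : Strata T} (hS : IsStrata S) {A : S.C} {d i j : ℤ} (hA : S.dim A ≤ d)
    (h : j < i) : Q1 S A d i j ↔ Vanish S A d i j := by
  constructor
  · rintro hQ B hB x ⟨B₁, h₁, hB₁, hx⟩
    obtain ⟨B₂, h₂, hB₂, h0⟩ := gen_vanish hT hS (n := 2 * d - i) (k := d - j) hA (by omega) hQ hB₁
      ((S.res A h₁ _ _).g x) (inG_of_inv ((frob_iff hT _ _ _ _).1 hx))
    refine ⟨B₂, h₁.trans h₂, hB₂, ?_⟩
    exact ((hS.res_res A h₁ h₂ (h₁.trans h₂) _ _).2 x).symm.trans ((arr_g hT _ _).symm.trans h0)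
  · intro hV B hB x hx
    obtain ⟨B', h', hB', h0⟩ := hV B hB x hx
    exact ⟨B', h', hB', by rw [h0]; exact Submodule.zero_mem _⟩

omit [CharZero Ω] hT in
theorem Maps.dominates {S S' : Strata T} {Y : S'.C} {Z : S.C} {d' d r : ℤ}
    (h : Maps S' Y d' S Z d r) : Dominates S' Y d' S Z d r := by
  intro B hB
  obtain ⟨B', hB', h⟩ := h B hB
  refine ⟨B', hB', fun n k => ?_⟩
  obtain ⟨α, h⟩ := h n k
  refine ⟨α, fun B'' hB hB'' => ?_⟩
  obtain ⟨B₁, h₁, hB₁, β, hβ⟩ := h B'' hB hB''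
  exact ⟨B₁, h₁, hB₁, β, hβ.2⟩

variable {U : Family T} (hU : IsUniverse U)

include hU

omit hU in
theorem ray_iff {S : Strata T} (hS : IsStrata S) {Z : S.C} {e : ℤ} (hZ : S.dim Z ≤ e) (a : ℤ) :
    Ray S Z e a ↔ ∀ j : ℤ, a < j → Q1 S Z e (2 * j - a) j :=
  forall_congr' fun j => forall_congr' fun hj =>
    (q1_iff_vanish hT hS hZ (by omega)).symm

theorem variety_self (t : U.I) : Variety U t (U.Y t) (U.d t) :=
  ⟨le_rfl, hU.dim_eq t, hU.nonneg t⟩

/-- From the schemes `Y t` to their closed subsets. -/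
theorem q1_of_dim {i j e : ℤ} (h : ∀ t, U.d t = e → Q1 (U.S t) (U.Y t) (U.d t) i j) (t : U.I)
    {Z : (U.S t).C} (hZ : Z ≤ U.Y t) (he : 0 ≤ e) (hd : (U.S t).dim Z ≤ e) :
    Q1 (U.S t) Z e i j := by
  obtain ⟨t', ht', hD⟩ := hU.models t Z e hZ he hd
  have h1 := h t' ht'
  rw [ht'] at h1
  exact q1_dominates hT (hU.strata t) (hU.strata t') (by ring) hD.dominates h1

theorem empty_good (t : U.I) {C : (U.S t).C} (hC : (U.S t).dim C < 0) (n k : ℤ) :
    (nc hT (U.S t) C n k).Good :=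
  Node.good_of_zero _ (hU.empty t C hC n k).1 fun e _ => (hU.empty t C hC n k).2 e

/-- The dimension of a closed subset. -/
theorem ex_dim (t : U.I) (C : (U.S t).C) : ∃ N : ℕ, (U.S t).dim C = (N : ℤ) - 1 := by
  have h1 := (hU.strata t).dim_mono (bot_le : (⊥ : (U.S t).C) ≤ C)
  rw [(hU.strata t).dim_bot] at h1
  exact ⟨((U.S t).dim C + 1).toNat, by omega⟩

/-- Cycles on closed subsets. -/
theorem onto_cycles_nat {D : ℤ}
    (h : ∀ t, U.d t ≤ D → ∀ j : ℤ, 0 < j → Q1 (U.S t) (U.Y t) (U.d t) (2 * j) j)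
    (N : ℕ) : (N : ℤ) - 1 ≤ D → ∀ (t : U.I) (C : (U.S t).C), C ≤ U.Y t →
      (U.S t).dim C ≤ (N : ℤ) - 1 → ∀ k : ℤ, (nc hT (U.S t) C (2 * k) k).Onto := by
  induction N with
  | zero =>
    intro _ t C _ hC k
    exact (empty_good hT hU t (by omega) _ _).2
  | succ N ih =>
    intro hN t C hCY hC k
    have hC' : (U.S t).dim C ≤ N := by
      push_cast at hC
      omega
    rcases le_or_gt (N : ℤ) k with hk | hk
    · exact (cTop hT (hU.strata t) (c := k) (hC'.trans hk) rfl rfl).1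
    · have h1 := q1_of_dim hT hU (fun t ht => h t (by push_cast at hN; omega) ((N : ℤ) - k)
        (by omega)) t hCY (Int.natCast_nonneg N) hC'
      have e1 : 2 * (N : ℤ) - 2 * (N - k) = 2 * k := by ring
      have e2 : (N : ℤ) - (N - k) = k := by ring
      unfold Q1 at h1
      rw [e1, e2] at h1
      exact onto_of_gen hT (hU.strata t) (Int.natCast_nonneg N) hC' (by omega) h1
        fun C' hC'' hd => ih (by push_cast at hN; omega) t C' (hC''.trans hCY) (by omega) k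

theorem onto_cycles {D : ℤ}
    (h : ∀ t, U.d t ≤ D → ∀ j : ℤ, 0 < j → Q1 (U.S t) (U.Y t) (U.d t) (2 * j) j)
    (t : U.I) {C : (U.S t).C} (hC : C ≤ U.Y t) (hd : (U.S t).dim C ≤ D) (k : ℤ) :
    (nc hT (U.S t) C (2 * k) k).Onto := by
  obtain ⟨N, hN⟩ := ex_dim hT hU t C
  exact onto_cycles_nat hT hU h N (by omega) t C hC hN.le k

/-- The kernel of the cycle class maps on closed subsets. -/
theorem inj_cycles_nat {D : ℤ}
    (h : ∀ t, U.d t ≤ D → ∀ j : ℤ, 1 < j → Q1 (U.S t) (U.Y t) (U.d t) (2 * j - 1) j)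
    (N : ℕ) : (N : ℤ) - 1 ≤ D → ∀ (t : U.I) (C : (U.S t).C), C ≤ U.Y t →
      (U.S t).dim C ≤ (N : ℤ) - 1 → ∀ k : ℤ,
        Function.Injective (nc hT (U.S t) C (2 * k) k).lam := by
  induction N with
  | zero =>
    intro _ t C _ hC k
    exact (empty_good hT hU t (by omega) _ _).1
  | succ N ih =>
    intro hN t C hCY hC k
    have hC' : (U.S t).dim C ≤ N := by
      push_cast at hC
      omega
    rcases le_or_gt (N : ℤ) k with hk | hk
    · exact (cTop hT (hU.strata t) (c := k) (hC'.trans hk) rfl rfl).2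
    rcases lt_or_eq_of_le (Int.le_sub_one_of_lt hk) with hk' | hk'
    · have h1 := q1_of_dim hT hU (fun t ht => h t (by push_cast at hN; omega) ((N : ℤ) - k)
        (by omega)) t hCY (Int.natCast_nonneg N) hC'
      have e1 : 2 * (N : ℤ) - (2 * (N - k) - 1) = 2 * k + 1 := by ring
      have e2 : (N : ℤ) - (N - k) = k := by ring
      unfold Q1 at h1
      rw [e1, e2] at h1
      exact inj₁ hT (hU.strata t) (Int.natCast_nonneg N) hC' rfl (by omega) h1
        fun C' hC'' hd => ih (by push_cast at hN; omega) t C' (hC''.trans hCY) (by omega) k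
    · exact cDiv hT (hU.strata t) hC' (by omega) hk'

/-- The degree after cycles on closed subsets. -/
theorem onto_one_nat {D : ℤ}
    (h : ∀ t, U.d t ≤ D → ∀ j : ℤ, 1 < j → Q1 (U.S t) (U.Y t) (U.d t) (2 * j - 1) j)
    (N : ℕ) : (N : ℤ) - 1 ≤ D → ∀ (t : U.I) (C : (U.S t).C), C ≤ U.Y t →
      (U.S t).dim C ≤ (N : ℤ) - 1 → ∀ k : ℤ, (nc hT (U.S t) C (2 * k + 1) k).Onto := by
  induction N with
  | zero =>
    intro _ t C _ hC k
    exact (empty_good hT hU t (by omega) _ _).2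
  | succ N ih =>
    intro hN t C hCY hC k
    have hC' : (U.S t).dim C ≤ N := by
      push_cast at hC
      omega
    rcases le_or_gt (N : ℤ) k with hk | hk
    · exact (cW hT (hU.strata t) hC' (by omega)).onto
    rcases lt_or_eq_of_le (Int.le_sub_one_of_lt hk) with hk' | hk'
    · have h1 := q1_of_dim hT hU (fun t ht => h t (by push_cast at hN; omega) ((N : ℤ) - k)
        (by omega)) t hCY (Int.natCast_nonneg N) hC'
      have e1 : 2 * (N : ℤ) - (2 * (N - k) - 1) = 2 * k + 1 := by ring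
      have e2 : (N : ℤ) - (N - k) = k := by ring
      unfold Q1 at h1
      rw [e1, e2] at h1
      exact onto_of_gen hT (hU.strata t) (Int.natCast_nonneg N) hC' (by omega) h1
        fun C' hC'' hd => ih (by push_cast at hN; omega) t C' (hC''.trans hCY) (by omega) k
    · exact (cUnits hT (hU.strata t) hC' (by omega) hk').1

/-- Descent to projective spaces. -/
theorem ray_space {a : ℤ} {t n : U.I} {Z : (U.S t).C} {e : ℤ} (hZ : Variety U t Z e) (hn : U.R n)
    (hd : U.d n ≤ e) (h : Ray (U.S t) Z e a) : Ray (U.S n) (U.Y n) (U.d n) a :=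
  (ray_iff hT (hU.strata n) (hU.dim_eq n).le a).2 fun j hj =>
    q1_dominates hT (hU.strata n) (hU.strata t) (by ring)
      (hU.noether t n Z e hZ hn hd).dominates ((ray_iff hT (hU.strata t) hZ.2.1.le a).1 h j hj)

theorem tate_of_even {N : ℤ}
    (h : ∀ t, U.d t ≤ N → ∀ j : ℤ, 0 < j → Q1 (U.S t) (U.Y t) (U.d t) (2 * j) j) :
    TateTo U N := by
  intro t ht k
  rw [ontoAt_iff hT]
  exact onto_cycles hT hU h t le_rfl (((hU.dim_eq t).le).trans ht) k

theorem beilinson_of_odd {N : ℤ}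
    (h : ∀ t, U.d t ≤ N → ∀ j : ℤ, 1 < j → Q1 (U.S t) (U.Y t) (U.d t) (2 * j - 1) j) :
    BeilinsonTo U N := by
  intro t ht k
  rw [injAt_iff hT]
  obtain ⟨M, hM⟩ := ex_dim hT hU t (U.Y t)
  have h1 := (hU.dim_eq t).le
  exact inj_cycles_nat hT hU h M (by omega) t _ le_rfl hM.le k

include hW

/-- From rational function fields in the degrees `(2 j - 1, j)` to all varieties in the degrees
`(2 r, r)`. -/
theorem even_of_rational {t n : U.I} (hn : U.R n) (hd : U.d n = U.d t + 1)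
    (h : Ray (U.S n) (U.Y n) (U.d n) 1)
    {r : ℤ} (hr : 0 < r) : Q1 (U.S t) (U.Y t) (U.d t) (2 * r) r := by
  obtain ⟨Z, hZ, hZd, hD⟩ := hU.hypersurface t n hn hd
  have hg := (tb_iff T hT _).1 (hU.space_tb n hn)
  have h1 := (ray_iff hT (hU.strata n) (hU.dim_eq n).le 1).1 h (r + 1) (by omega)
  have hX := (hU.dim_eq n).le
  rw [hd] at h1 hX
  have e1 : 2 * (U.d t + 1) - (2 * (r + 1) - 1) = 2 * (U.d t - r) + 1 := by ring
  have e2 : U.d t + 1 - (r + 1) = U.d t - r := by ring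
  unfold Q1 at h1
  rw [e1, e2] at h1
  refine q1_dominates hT (hU.strata t) (hU.strata n) (by ring) hD.dominates ?_
  have e3 : 2 * U.d t - 2 * r = 2 * (U.d t - r) := by ring
  unfold Q1
  rw [e3]
  exact down₁ hT (hU.strata n) (hU.nonneg t) hX hZ hZd (m := 2 * (U.d t - r) - 1) (by ring) (by ring)
    (by omega) h1 (fun C _ _ => (cLow hT hW C (by omega)).1) (cLow hT hW _ (by omega)).2 (hg _ _).2

omit hW in
/-- From rational function fields in the degrees `(2 j - 2, j)` to all varieties in the degrees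
`(2 r - 1, r)`. -/
theorem odd_of_rational {t n : U.I} (hn : U.R n) (hd : U.d n = U.d t + 1)
    (h : Ray (U.S n) (U.Y n) (U.d n) 2) {D : ℤ}
    (h0 : ∀ t, U.d t ≤ D → ∀ j : ℤ, 0 < j → Q1 (U.S t) (U.Y t) (U.d t) (2 * j) j)
    (hD' : U.d t ≤ D) {r : ℤ} (hr : 1 < r) :
    Q1 (U.S t) (U.Y t) (U.d t) (2 * r - 1) r := by
  obtain ⟨Z, hZ, hZd, hD⟩ := hU.hypersurface t n hn hd
  have hg := (tb_iff T hT _).1 (hU.space_tb n hn)
  have h1 := (ray_iff hT (hU.strata n) (hU.dim_eq n).le 2).1 h (r + 1) (by omega)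
  have hX := (hU.dim_eq n).le
  rw [hd] at h1 hX
  have e1 : 2 * (U.d t + 1) - (2 * (r + 1) - 2) = 2 * (U.d t - r) + 1 + 1 := by ring
  have e2 : U.d t + 1 - (r + 1) = U.d t - r := by ring
  unfold Q1 at h1
  rw [e1, e2] at h1
  refine q1_dominates hT (hU.strata t) (hU.strata n) (by ring) hD.dominates ?_
  have e3 : 2 * U.d t - (2 * r - 1) = 2 * (U.d t - r) + 1 := by ring
  unfold Q1
  rw [e3]
  exact down₁ hT (hU.strata n) (hU.nonneg t) hX hZ hZd (m := 2 * (U.d t - r)) (by ring) (by ring)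
    (by omega) h1 (fun C hC hCd => onto_cycles hT hU h0 n hC (by omega) _) (hg _ _).1 (hg _ _).2

/-- The conjecture of Tate implies Q1 in the degrees `(2 j, j)`. -/
theorem even_of_tate {N : ℤ} (h : TateTo U N) (t : U.I) (ht : U.d t ≤ N) (j : ℤ) :
    Q1 (U.S t) (U.Y t) (U.d t) (2 * j) j := by
  refine q1_cycles hT (hU.strata t) hW rfl ?_
  have e1 : 2 * U.d t - 2 * j = 2 * (U.d t - j) := by ring
  rw [e1, ← ontoAt_iff hT]
  exact h t ht _

/-- Q1 in the degrees `(2 j - 1, j)` for one scheme. -/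
theorem odd_of {t : U.I} (h : TateTo U (U.d t - 1))
    (hI : ∀ k, Function.Injective (nc hT (U.S t) (U.Y t) (2 * k) k).lam) (j : ℤ) :
    Q1 (U.S t) (U.Y t) (U.d t) (2 * j - 1) j := by
  have e1 : 2 * U.d t - (2 * j - 1) = 2 * (U.d t - j) + 1 := by ring
  unfold Q1
  rw [e1]
  exact closed_up hT (hU.strata t) (m := 2 * (U.d t - j)) rfl
    (noInv_noG hT (hU.pure t _ _ (by omega))).onto (hI _) fun Z hZ hZd w hw =>
      onto_cycles hT hU (fun t ht j _ => even_of_tate hT hW hU h t ht j) t hZ (by omega) _ w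
        (inG_of_inv hw)

/-- Q1 in the degrees `(2 j - 2, j)` for schemes that satisfy the conjecture. -/
theorem two_of {n : U.I} (hn : TB T ((U.S n).cl (U.Y n)))
    (h : ∀ t, U.d t ≤ U.d n - 1 → ∀ j : ℤ, 1 < j → Q1 (U.S t) (U.Y t) (U.d t) (2 * j - 1) j)
    (j : ℤ) : Q1 (U.S n) (U.Y n) (U.d n) (2 * j - 2) j := by
  have hg := (tb_iff T hT _).1 hn
  have e1 : 2 * U.d n - (2 * j - 2) = 2 * (U.d n - j) + 1 + 1 := by ring
  unfold Q1
  rw [e1]
  refine closed_up hT (hU.strata n) (m := 2 * (U.d n - j) + 1) rfl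
    (noInv_noG hT (hU.pure n _ _ (by omega))).onto (hg _ _).1 fun Z hZ hZd w hw => ?_
  obtain ⟨N, hN⟩ := ex_dim hT hU n Z
  exact onto_one_nat hT hU h N (by omega) n Z hZ hN.le _ w (inG_of_inv hw)

theorem tate_of_ray {t : U.I} {Z : (U.S t).C} {e : ℤ} (hZ : Variety U t Z e)
    (h : Ray (U.S t) Z e 1) : TateTo U (e - 1) := by
  refine tate_of_even hT hU fun t' ht' j hj => ?_
  obtain ⟨n, hn, hd⟩ := hU.space (U.d t' + 1) (by have := hU.nonneg t'; omega)
  exact even_of_rational hT hW hU hn hd (ray_space hT hU hZ hn (by omega) h) hj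

theorem beilinson_of_ray {t : U.I} {Z : (U.S t).C} {e : ℤ} (hZ : Variety U t Z e)
    (h : Ray (U.S t) Z e 1) (h2 : Ray (U.S t) Z e 2) : BeilinsonTo U (e - 1) := by
  have hTate := tate_of_ray hT hW hU hZ h
  refine beilinson_of_odd hT hU fun t' ht' j hj => ?_
  obtain ⟨n, hn, hd⟩ := hU.space (U.d t' + 1) (by have := hU.nonneg t'; omega)
  exact odd_of_rational hT hU hn hd (ray_space hT hU hZ hn (by omega) h2)
    (fun t ht j _ => even_of_tate hT hW hU hTate t ht j) ht' hj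

theorem ray_one_of {t : U.I} (h : TateTo U (U.d t - 1))
    (hI : ∀ k, Function.Injective (nc hT (U.S t) (U.Y t) (2 * k) k).lam) :
    Ray (U.S t) (U.Y t) (U.d t) 1 :=
  (ray_iff hT (hU.strata t) (hU.dim_eq t).le 1).2 fun j _ => odd_of hT hW hU h hI j

omit hT hW hU in
theorem TateTo.mono {N M : ℤ} (h : TateTo U N) (hM : M ≤ N) : TateTo U M :=
  fun t ht => h t (ht.trans hM)

omit hW in
/-- Rays for the schemes `Y t` and for their closed subsets. -/
theorem rays_of {a N : ℤ} (h : ∀ t, U.d t ≤ N → Ray (U.S t) (U.Y t) (U.d t) a) : Rays U a N := by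
  rintro t Z e ⟨hZ, hd, he⟩ heN
  refine (ray_iff hT (hU.strata t) hd.le a).2 fun j hj => ?_
  exact q1_of_dim hT hU (fun t' ht' => (ray_iff hT (hU.strata t') (hU.dim_eq t').le a).1
    (h t' (by omega)) j hj) t hZ he hd.le

/-- The rays. -/
theorem ray_theorem : RayTheorem U := by
  have hself := variety_self hT hU
  refine ⟨fun N => ⟨fun h => ?_, fun h => rays_of hT hU fun t ht => ?_⟩,
    fun N => ⟨fun h => ⟨?_, ?_⟩, ?_⟩,
    fun t Z e hZ h => ⟨tate_of_ray hT hW hU hZ h, fun h2 => beilinson_of_ray hT hW hU hZ h h2⟩,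
    fun t hTB => ⟨⟨fun h => tate_of_ray hT hW hU (hself t) h, fun h => ?_⟩,
      ⟨fun h => ⟨tate_of_ray hT hW hU (hself t) h.1, beilinson_of_ray hT hW hU (hself t) h.1 h.2⟩,
        fun h => ⟨?_, ?_⟩⟩⟩⟩
  · refine tate_of_even hT hU fun t ht j hj => ?_
    have h1 := (ray_iff hT (hU.strata t) (hU.dim_eq t).le 0).1 (h t _ _ (hself t) ht) j hj
    rwa [sub_zero] at h1
  · refine (ray_iff hT (hU.strata t) (hU.dim_eq t).le 0).2 fun j _ => ?_
    rw [sub_zero]
    exact even_of_tate hT hW hU h t ht j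
  · refine tate_of_even hT hU fun t ht j hj => ?_
    obtain ⟨n, hn, hd⟩ := hU.space (U.d t + 1) (by have := hU.nonneg t; omega)
    exact even_of_rational hT hW hU hn hd (h n _ _ (hself n) (by omega)) hj
  · exact beilinson_of_odd hT hU fun t ht j hj =>
      (ray_iff hT (hU.strata t) (hU.dim_eq t).le 1).1 (h t _ _ (hself t) ht) j hj
  · rintro ⟨h1, h2⟩
    exact rays_of hT hU fun t ht => ray_one_of hT hW hU (h1.mono (by omega)) fun k =>
      (injAt_iff hT _ _ _).1 (h2 t ht k)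
  · exact ray_one_of hT hW hU h fun k => ((tb_iff T hT _).1 hTB _ _).1
  · exact ray_one_of hT hW hU h.1 fun k => ((tb_iff T hT _).1 hTB _ _).1
  · refine (ray_iff hT (hU.strata t) (hU.dim_eq t).le 2).2 fun j _ =>
      two_of hT hW hU hTB (fun t' ht' j _ => ?_) j
    exact odd_of hT hW hU (h.1.mono (by omega))
      (fun k => (injAt_iff hT _ _ _).1 (h.2 t' ht' k)) j

end

end Pool.Agent.K6.H28.RV
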